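import Pool.Agent.helper31.RLS.Spec

/-!
# Project RLS (MP_ad8ced_nt), row GI: basic facts on good sets of primes
-/

set_option autoImplicit false

namespace Pool.Agent.RLS

open Finset

private theorem GI_sum (g : ℕ → ℝ) (S : Finset ℕ) :
    ∑ p ∈ S, g p * VV g (bel S p) = 1 - VV g S := by
  unfold VV bel
  rw [Finset.prod_one_sub_ordered]
  ring

private theorem GI_pos {om : ℝ} (hom : 0 < om) {p : ℕ} (h : om ≤ Real.log p) : (0 : ℝ) < p := by
  rcases Nat.eq_zero_or_pos p with rfl | h0
  · rw [Nat.cast_zero, Real.log_zero] at h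
    linarith
  · exact_mod_cast h0

/-- GI -/
theorem GI : GI_stmt := by
  intro g om et y P hom hoy hG
  have hy : 0 < y := by linarith
  have hlt : ∀ p ∈ P, ∀ q ∈ P, (q < p ↔ Real.log q < Real.log p) := by
    intro p hp q hq
    have h1 := GI_pos hom (hG.rng p hp).1
    have h2 := GI_pos hom (hG.rng q hq).1
    rw [Real.log_lt_log_iff h2 h1]
    exact Nat.cast_lt.symm
  refine ⟨fun p hp => ?_, GI_sum g P, fun het => ?_, fun t => ?_⟩
  · have hp1 := hG.rng p hp
    have hbel : bel P p = P.filter fun q : ℕ => Real.log q < Real.log p := by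
      unfold bel
      exact Finset.filter_congr fun q hq => hlt p hp q hq
    refine ⟨fun q hq => ?_, fun q hq => ?_, fun t ht1 ht2 => ?_, ?_⟩
    · rw [hbel, Finset.mem_filter] at hq
      exact ⟨(hG.rng q hq.1).1, hq.2.le⟩
    · rw [hbel, Finset.mem_filter] at hq
      exact hG.g01 q hq.1
    · have e : (bel P p).filter (fun q : ℕ => Real.log q < t) =
          P.filter fun q : ℕ => Real.log q < t := by
        rw [hbel, Finset.filter_filter]
        refine Finset.filter_congr fun q _ => ⟨fun h => h.2, fun h => ⟨h.trans_le ht2, h⟩⟩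
      rw [e]
      exact hG.opn t ht1 (ht2.trans hp1.2)
    · rw [hbel]
      exact hG.opn _ hp1.1 hp1.2
  · have h1 : om / (2 * y) ≤ VV g P := by
      have h2 := (abs_le.1 hG.tot).1
      have h3 : om / y = om / (2 * y) + om / (2 * y) := by
        field_simp
        ring
      linarith
    have h4 : VV g P ≤ Real.exp (-∑ p ∈ P, g p) := by
      unfold VV
      rw [← Finset.sum_neg_distrib, Real.exp_sum]
      refine Finset.prod_le_prod (fun p hp => ?_) fun p _ => ?_
      · have := (hG.g01 p hp).2
        linarith
      · have := Real.add_one_le_exp (-g p)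
        linarith
    have h5 : 0 < om / (2 * y) := by positivity
    have h6 : Real.log (om / (2 * y)) ≤ -∑ p ∈ P, g p := by
      rw [Real.log_le_iff_le_exp h5]
      exact h1.trans h4
    have h7 : Real.log (2 * y / om) = -Real.log (om / (2 * y)) := by
      rw [← Real.log_inv, inv_div]
    rw [h7]
    linarith
  · have h := GI_sum g (P.filter fun p : ℕ => Real.log p < t)
    rw [← h]
    refine Finset.sum_congr rfl fun p hp => ?_
    rw [Finset.mem_filter] at hp
    have e : bel (P.filter fun p : ℕ => Real.log p < t) p = bel P p := by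
      unfold bel
      rw [Finset.filter_filter]
      refine Finset.filter_congr fun q hq => ⟨fun h => h.2, fun h => ⟨?_, h⟩⟩
      exact ((hlt p hp.1 q hq).1 h).trans hp.2
    rw [e]

end Pool.Agent.RLS
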